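import Pool.Agent.helper81.MU.Baire

/-!
# Project MU, module N1: `baire_filler` with a comeager set
-/

namespace Pool.Agent.helper81.MU

open Filter Set

theorem baire_filler' {X Y : ℕ → Type} [∀ n, Finite (X n)] [∀ n, Nonempty (X n)] [∀ n, Finite (Y n)]
    [∀ n, TopologicalSpace (X n)] [∀ n, DiscreteTopology (X n)] (U : Ultrafilter ℕ)
    (F : (∀ n, X n) → ∀ n, Y n) (hF : ∀ n (y : Y n), BaireMeasurableSet {x | F x n = y})
    (C : Set (∀ n, X n)) (hC : C ∈ residual (∀ n, X n)) :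
    ∃ A ∈ U, ∃ s : ∀ n, X n, (∀ z : ∀ n, X n, (∀ l ∉ A, z l = s l) → z ∈ C) ∧
      ∀ n, ∃ m, ∀ x x' : ∀ n, X n, (∀ l, l < m → x l = x' l) →
        ∀ z z' : ∀ n, X n, (∀ l ∈ A, z l = x l) → (∀ l ∉ A, z l = s l) →
          (∀ l ∈ A, z' l = x' l) → (∀ l ∉ A, z' l = s l) → F z n = F z' n := by
  classical
  have x0 : ∀ n, X n := fun n => Classical.arbitrary _
  choose O hO hFO using fun (p : Σ n, Y n) => (hF p.1 p.2).residualEq_isOpen
  have hres : {x | ∀ p : Σ n, Y n, (F x p.1 = p.2 ↔ x ∈ O p)} ∈ residual (∀ n, X n) := by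
    have : ∀ n, Countable (Y n) := fun n => Finite.to_countable
    have h1 : ∀ᶠ x in residual (∀ n, X n), ∀ p : Σ n, Y n, (F x p.1 = p.2 ↔ x ∈ O p) := by
      rw [eventually_countable_forall]
      intro p
      filter_upwards [hFO p] with x hx
      exact iff_of_eq hx
    exact h1
  obtain ⟨S, hS1, hS2, hS3, hS4⟩ := mem_residual_iff.mp (inter_mem hres hC)
  obtain ⟨f, hf⟩ := (hS3.insert Set.univ).exists_eq_range ⟨Set.univ, Set.mem_insert _ _⟩
  have hfo : ∀ k, IsOpen (f k) ∧ Dense (f k) := fun k => by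
    have h1 : f k ∈ insert Set.univ S := by rw [hf]; exact ⟨k, rfl⟩
    rcases Set.mem_insert_iff.mp h1 with h | h
    · rw [h]; exact ⟨isOpen_univ, dense_univ⟩
    · exact ⟨hS1 _ h, hS2 _ h⟩
  have hfS : ∀ x, (∀ k, x ∈ f k) → (∀ p : Σ n, Y n, (F x p.1 = p.2 ↔ x ∈ O p)) ∧ x ∈ C := fun x hx => by
    apply hS4
    intro t ht
    have h1 : t ∈ Set.range f := by rw [← hf]; exact Set.mem_insert_of_mem _ ht
    obtain ⟨k, rfl⟩ := h1
    exact hx k
  let V : ℕ → Set (∀ n, X n) := fun k => ⋂ i ∈ Finset.range (k + 1), f i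
  have hV : ∀ k, IsOpen (V k) ∧ Dense (V k) := by
    intro k
    induction k with
    | zero =>
      have h1 : V 0 = f 0 := by
        ext x
        simp [V]
      rw [h1]; exact hfo 0
    | succ k ih =>
      have h1 : V (k + 1) = f (k + 1) ∩ V k := by
        ext x
        simp only [V, Finset.mem_range, Set.mem_iInter, Set.mem_inter_iff]
        constructor
        · exact fun h => ⟨h (k + 1) (by omega), fun i hi => h i (by omega)⟩
        · rintro ⟨h2, h3⟩ i hi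
          rcases Nat.lt_succ_iff_lt_or_eq.mp hi with h | h
          · exact h3 i h
          · rw [h]; exact h2
      rw [h1]
      exact ⟨(hfo (k + 1)).1.inter ih.1, (hfo (k + 1)).2.inter_of_isOpen_left ih.2 (hfo (k + 1)).1⟩
  obtain ⟨n, s, hn, hn0, hns⟩ := M7_fill x0 V (fun k => (hV k).1) (fun k => (hV k).2)
  choose K hK1 hK2 using M7_index hn hn0
  -- one half of the blocks is in the ultrafilter
  obtain ⟨A, hA, hinf⟩ : ∃ A ∈ U, ∀ j, ∃ k, j ≤ k ∧ ∀ l, n k ≤ l → l < n (k + 1) → l ∉ A := by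
    have hK : ∀ k l, n k ≤ l → l < n (k + 1) → K l = k := fun k l h1 h2 =>
      M7_uniq hn (hK1 l) (hK2 l) h1 h2
    by_cases h : {l | Even (K l)} ∈ U
    · refine ⟨_, h, fun j => ⟨2 * j + 1, by omega, fun l h1 h2 h3 => ?_⟩⟩
      rw [Set.mem_ofPred_eq, hK _ l h1 h2] at h3
      exact (Nat.not_even_iff_odd.mpr ⟨j, rfl⟩) h3
    · refine ⟨_, Ultrafilter.compl_mem_iff_notMem.mpr h, fun j => ⟨2 * j, by omega,
        fun l h1 h2 h3 => h3 ?_⟩⟩
      rw [Set.mem_ofPred_eq, hK _ l h1 h2]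
      exact ⟨j, by ring⟩
  -- on the sequences which are equal to `s` outside of `A` the map is continuous
  have hZ' : ∀ z : ∀ n, X n, (∀ l ∉ A, z l = s l) →
      (∀ p : Σ n, Y n, (F z p.1 = p.2 ↔ z ∈ O p)) ∧ z ∈ C := by
    intro z hz
    apply hfS
    intro k
    obtain ⟨k', hk', h1⟩ := hinf k
    have h2 : z ∈ V k' := hns k' z (fun l hl hl' => hz l (h1 l hl hl'))
    simp only [V, Finset.mem_range, Set.mem_iInter] at h2
    exact h2 k (by omega)
  have hZ : ∀ z : ∀ n, X n, (∀ l ∉ A, z l = s l) → ∀ p : Σ n, Y n, (F z p.1 = p.2 ↔ z ∈ O p) :=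
    fun z hz => (hZ' z hz).1
  refine ⟨A, hA, s, fun z hz => (hZ' z hz).2, fun i => ?_⟩
  have hcl : IsClosed {z : ∀ n, X n | ∀ l ∉ A, z l = s l} := by
    have h1 : {z : ∀ n, X n | ∀ l ∉ A, z l = s l} = ⋂ l, ⋂ (_ : l ∉ A), {z | z l = s l} := by
      ext z
      simp
    rw [h1]
    exact isClosed_iInter fun l => isClosed_iInter fun _ =>
      isClosed_eq (continuous_apply l) continuous_const
  have hcp : IsCompact {z : ∀ n, X n | ∀ l ∉ A, z l = s l} := hcl.isCompact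
  have hloc : ∀ z : ∀ n, X n, ∃ m, (∀ l ∉ A, z l = s l) → ∀ z' : ∀ n, X n, (∀ l ∉ A, z' l = s l) →
      (∀ l < m, z' l = z l) → F z' i = F z i := by
    intro z
    by_cases hz : ∀ l ∉ A, z l = s l
    · have h1 : z ∈ O ⟨i, F z i⟩ := (hZ z hz ⟨i, F z i⟩).mp rfl
      obtain ⟨m, hm⟩ := M7_cyl (hO ⟨i, F z i⟩) h1
      exact ⟨m, fun _ z' hz' h2 => (hZ z' hz' ⟨i, F z i⟩).mpr (hm z' h2)⟩
    · exact ⟨0, fun h => (hz h).elim⟩
  choose m hm using hloc
  obtain ⟨t, ht1, ht2⟩ := hcp.elim_nhds_subcover (fun z => PiNat.cylinder z (m z))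
    (fun z _ => (PiNat.isOpen_cylinder X z (m z)).mem_nhds (PiNat.self_mem_cylinder z (m z)))
  refine ⟨t.sup m, fun x x' hxx z z' hz1 hz2 hz1' hz2' => ?_⟩
  have hzz : ∀ l < t.sup m, z' l = z l := fun l hl => by
    by_cases hl' : l ∈ A
    · rw [hz1 l hl', hz1' l hl', hxx l hl]
    · rw [hz2 l hl', hz2' l hl']
  have h1 := ht2 hz2
  simp only [Set.mem_iUnion] at h1
  obtain ⟨y, hy, hzy⟩ := h1
  rw [PiNat.mem_cylinder_iff] at hzy
  have hmy : m y ≤ t.sup m := Finset.le_sup hy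
  have hy' := ht1 y hy
  rw [hm y hy' z hz2 hzy, hm y hy' z' hz2' (fun l hl => (hzz l (lt_of_lt_of_le hl hmy)).trans
    (hzy l hl))]

end Pool.Agent.helper81.MU
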