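import Mathlib

/-!
# Project MU, module M7: Baire measurable maps are continuous after a filler
-/

namespace Pool.Agent.helper81.MU

open Filter Set

section

variable {X : ℕ → Type} [∀ n, TopologicalSpace (X n)] [∀ n, DiscreteTopology (X n)]

theorem M7_cyl {V : Set (∀ n, X n)} (hV : IsOpen V) {x : ∀ n, X n} (hx : x ∈ V) :
    ∃ m, ∀ y : ∀ n, X n, (∀ l < m, y l = x l) → y ∈ V := by
  obtain ⟨v, ⟨z, m, rfl⟩, hxv, hv⟩ :=
    (PiNat.isTopologicalBasis_cylinders X).exists_subset_of_mem_open hx hV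
  refine ⟨m, fun y hy => hv ?_⟩
  rw [PiNat.mem_cylinder_iff] at hxv ⊢
  exact fun i hi => (hy i hi).trans (hxv i hi)

/-- a pattern on a block which forces a dense open set, for finitely many prefixes -/
theorem M7_pat {V : Set (∀ n, X n)} (hV : IsOpen V) (hD : Dense V) (x0 : ∀ n, X n) (N : ℕ)
    (T : Finset (∀ n, X n)) :
    ∃ N', N ≤ N' ∧ ∃ w : ∀ n, X n, ∀ u ∈ T, ∀ x : ∀ n, X n, (∀ l < N, x l = u l) →
      (∀ l, N ≤ l → l < N' → x l = w l) → x ∈ V := by
  classical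
  induction T using Finset.induction_on with
  | empty => exact ⟨N, le_refl _, x0, fun u hu => by simp at hu⟩
  | insert u T _ ih =>
    obtain ⟨N1, hN1, w1, h1⟩ := ih
    let p : ∀ n, X n := fun l => if l < N then u l else w1 l
    obtain ⟨y, hy1, hy2⟩ := hD.inter_open_nonempty _ (PiNat.isOpen_cylinder X p N1)
      ⟨p, PiNat.self_mem_cylinder p N1⟩
    rw [PiNat.mem_cylinder_iff] at hy1
    obtain ⟨m, hm⟩ := M7_cyl hV hy2
    refine ⟨max N1 m, hN1.trans (le_max_left _ _), fun l => if l < N1 then w1 l else y l,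
      fun v hv x hx1 hx2 => ?_⟩
    have hx3 : ∀ l, N ≤ l → l < N1 → x l = w1 l := fun l hl hl' => by
      rw [hx2 l hl (lt_of_lt_of_le hl' (le_max_left _ _))]
      exact if_pos hl'
    rcases Finset.mem_insert.mp hv with rfl | hv
    · apply hm
      intro l hl
      by_cases h2 : l < N
      · rw [hx1 l h2, hy1 l (lt_of_lt_of_le h2 hN1)]
        simp only [p, if_pos h2]
      · by_cases h3 : l < N1
        · rw [hx3 l (by omega) h3, hy1 l h3]
          simp only [p, if_neg h2]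
        · rw [hx2 l (by omega) (lt_of_lt_of_le hl (le_max_right _ _))]
          exact if_neg h3
    · exact h1 v hv x hx1 hx3

/-- a pattern on a block which forces a dense open set -/
theorem M7_block [∀ n, Finite (X n)] {V : Set (∀ n, X n)} (hV : IsOpen V) (hD : Dense V)
    (x0 : ∀ n, X n) (N : ℕ) :
    ∃ N', N < N' ∧ ∃ w : ∀ n, X n, ∀ x : ∀ n, X n,
      (∀ l, N ≤ l → l < N' → x l = w l) → x ∈ V := by
  classical
  let f : (∀ l : Fin N, X l) → ∀ n, X n := fun p l => if h : l < N then p ⟨l, h⟩ else x0 l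
  have : Finite (∀ l : Fin N, X l) := Pi.finite
  have : Fintype (∀ l : Fin N, X l) := Fintype.ofFinite _
  obtain ⟨N1, hN1, w, hw⟩ := M7_pat hV hD x0 N (Finset.univ.image f)
  refine ⟨N1 + 1, by omega, w, fun x hx => hw (f (fun l => x l))
    (Finset.mem_image_of_mem _ (Finset.mem_univ _)) x (fun l hl => ?_)
    (fun l hl hl' => hx l hl (by omega))⟩
  simp only [f, dif_pos hl]

/-- the index of the block of `l` -/
theorem M7_index {n : ℕ → ℕ} (hn : StrictMono n) (h0 : n 0 = 0) (l : ℕ) :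
    ∃ k, n k ≤ l ∧ l < n (k + 1) := by
  have h1 : ∃ k, l < n (k + 1) := ⟨l, lt_of_lt_of_le (Nat.lt_succ_self l) (hn.id_le (l + 1))⟩
  classical
  refine ⟨Nat.find h1, ?_, Nat.find_spec h1⟩
  rcases Nat.eq_zero_or_pos (Nat.find h1) with h | h
  · rw [h, h0]; exact Nat.zero_le _
  · have h2 := Nat.find_min h1 (Nat.sub_lt h Nat.one_pos)
    rw [Nat.sub_add_cancel h] at h2
    omega

theorem M7_uniq {n : ℕ → ℕ} (hn : StrictMono n) {l k k' : ℕ} (h1 : n k ≤ l) (h2 : l < n (k + 1))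
    (h1' : n k' ≤ l) (h2' : l < n (k' + 1)) : k = k' := by
  rcases lt_trichotomy k k' with h | h | h
  · have := hn.monotone (show k + 1 ≤ k' by omega)
    omega
  · exact h
  · have := hn.monotone (show k' + 1 ≤ k by omega)
    omega

/-- fillers: an infinite set of blocks forces membership in the intersection -/
theorem M7_fill [∀ n, Finite (X n)] (x0 : ∀ n, X n) (V : ℕ → Set (∀ n, X n))
    (hV : ∀ k, IsOpen (V k)) (hD : ∀ k, Dense (V k)) :
    ∃ (n : ℕ → ℕ) (s : ∀ n, X n), StrictMono n ∧ n 0 = 0 ∧ ∀ k, ∀ x : ∀ n, X n,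
      (∀ l, n k ≤ l → l < n (k + 1) → x l = s l) → x ∈ V k := by
  classical
  choose N' hN' w hw using fun (k : ℕ) (N : ℕ) => M7_block (hV k) (hD k) x0 N
  let n : ℕ → ℕ := fun k => Nat.rec 0 (fun j m => N' j m) k
  have hs : ∀ k, n (k + 1) = N' k (n k) := fun k => rfl
  have hmono : StrictMono n := strictMono_nat_of_lt_succ fun k => by rw [hs]; exact hN' k (n k)
  choose K hK1 hK2 using M7_index hmono (rfl : n 0 = 0)
  refine ⟨n, fun l => w (K l) (n (K l)) l, hmono, rfl, fun k x hx => ?_⟩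
  apply hw k (n k)
  intro l hl hl'
  rw [hx l hl hl']
  have : K l = k := M7_uniq hmono (hK1 l) (hK2 l) hl hl'
  simp only [this]

end

theorem baire_filler {X Y : ℕ → Type} [∀ n, Finite (X n)] [∀ n, Nonempty (X n)] [∀ n, Finite (Y n)]
    [∀ n, TopologicalSpace (X n)] [∀ n, DiscreteTopology (X n)] (U : Ultrafilter ℕ)
    (F : (∀ n, X n) → ∀ n, Y n) (hF : ∀ n (y : Y n), BaireMeasurableSet {x | F x n = y}) :
    ∃ A ∈ U, ∃ s : ∀ n, X n, ∀ n, ∃ m, ∀ x x' : ∀ n, X n, (∀ l, l < m → x l = x' l) →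
      ∀ z z' : ∀ n, X n, (∀ l ∈ A, z l = x l) → (∀ l ∉ A, z l = s l) →
        (∀ l ∈ A, z' l = x' l) → (∀ l ∉ A, z' l = s l) → F z n = F z' n := by
  classical
  have x0 : ∀ n, X n := fun n => Classical.arbitrary _
  choose O hO hFO using fun (p : Σ n, Y n) => (hF p.1 p.2).residualEq_isOpen
  have hres : {x | ∀ p : Σ n, Y n, (F x p.1 = p.2 ↔ x ∈ O p)} ∈ residual (∀ n, X n) := by
    have : ∀ n, Countable (Y n) := fun n => Finite.to_countable
    have h1 : ∀ᶠ x in residual (∀ n, X n), ∀ p : Σ n, Y n, (F x p.1 = p.2 ↔ x ∈ O p) := by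
      rw [eventually_countable_forall]
      intro p
      filter_upwards [hFO p] with x hx
      exact iff_of_eq hx
    exact h1
  obtain ⟨S, hS1, hS2, hS3, hS4⟩ := mem_residual_iff.mp hres
  obtain ⟨f, hf⟩ := (hS3.insert Set.univ).exists_eq_range ⟨Set.univ, Set.mem_insert _ _⟩
  have hfo : ∀ k, IsOpen (f k) ∧ Dense (f k) := fun k => by
    have h1 : f k ∈ insert Set.univ S := by rw [hf]; exact ⟨k, rfl⟩
    rcases Set.mem_insert_iff.mp h1 with h | h
    · rw [h]; exact ⟨isOpen_univ, dense_univ⟩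
    · exact ⟨hS1 _ h, hS2 _ h⟩
  have hfS : ∀ x, (∀ k, x ∈ f k) → ∀ p : Σ n, Y n, (F x p.1 = p.2 ↔ x ∈ O p) := fun x hx => by
    apply hS4
    intro t ht
    have h1 : t ∈ Set.range f := by rw [← hf]; exact Set.mem_insert_of_mem _ ht
    obtain ⟨k, rfl⟩ := h1
    exact hx k
  let V : ℕ → Set (∀ n, X n) := fun k => ⋂ i ∈ Finset.range (k + 1), f i
  have hV : ∀ k, IsOpen (V k) ∧ Dense (V k) := by
    intro k
    induction k with
    | zero =>
      have h1 : V 0 = f 0 := by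
        ext x
        simp [V]
      rw [h1]; exact hfo 0
    | succ k ih =>
      have h1 : V (k + 1) = f (k + 1) ∩ V k := by
        ext x
        simp only [V, Finset.mem_range, Set.mem_iInter, Set.mem_inter_iff]
        constructor
        · exact fun h => ⟨h (k + 1) (by omega), fun i hi => h i (by omega)⟩
        · rintro ⟨h2, h3⟩ i hi
          rcases Nat.lt_succ_iff_lt_or_eq.mp hi with h | h
          · exact h3 i h
          · rw [h]; exact h2
      rw [h1]
      exact ⟨(hfo (k + 1)).1.inter ih.1, (hfo (k + 1)).2.inter_of_isOpen_left ih.2 (hfo (k + 1)).1⟩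
  obtain ⟨n, s, hn, hn0, hns⟩ := M7_fill x0 V (fun k => (hV k).1) (fun k => (hV k).2)
  choose K hK1 hK2 using M7_index hn hn0
  -- one half of the blocks is in the ultrafilter
  obtain ⟨A, hA, hinf⟩ : ∃ A ∈ U, ∀ j, ∃ k, j ≤ k ∧ ∀ l, n k ≤ l → l < n (k + 1) → l ∉ A := by
    have hK : ∀ k l, n k ≤ l → l < n (k + 1) → K l = k := fun k l h1 h2 =>
      M7_uniq hn (hK1 l) (hK2 l) h1 h2
    by_cases h : {l | Even (K l)} ∈ U
    · refine ⟨_, h, fun j => ⟨2 * j + 1, by omega, fun l h1 h2 h3 => ?_⟩⟩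
      rw [Set.mem_ofPred_eq, hK _ l h1 h2] at h3
      exact (Nat.not_even_iff_odd.mpr ⟨j, rfl⟩) h3
    · refine ⟨_, Ultrafilter.compl_mem_iff_notMem.mpr h, fun j => ⟨2 * j, by omega,
        fun l h1 h2 h3 => h3 ?_⟩⟩
      rw [Set.mem_ofPred_eq, hK _ l h1 h2]
      exact ⟨j, by ring⟩
  refine ⟨A, hA, s, fun i => ?_⟩
  -- on the sequences which are equal to `s` outside of `A` the map is continuous
  have hZ : ∀ z : ∀ n, X n, (∀ l ∉ A, z l = s l) → ∀ p : Σ n, Y n, (F z p.1 = p.2 ↔ z ∈ O p) := by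
    intro z hz
    apply hfS
    intro k
    obtain ⟨k', hk', h1⟩ := hinf k
    have h2 : z ∈ V k' := hns k' z (fun l hl hl' => hz l (h1 l hl hl'))
    simp only [V, Finset.mem_range, Set.mem_iInter] at h2
    exact h2 k (by omega)
  have hcl : IsClosed {z : ∀ n, X n | ∀ l ∉ A, z l = s l} := by
    have h1 : {z : ∀ n, X n | ∀ l ∉ A, z l = s l} = ⋂ l, ⋂ (_ : l ∉ A), {z | z l = s l} := by
      ext z
      simp
    rw [h1]
    exact isClosed_iInter fun l => isClosed_iInter fun _ =>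
      isClosed_eq (continuous_apply l) continuous_const
  have hcp : IsCompact {z : ∀ n, X n | ∀ l ∉ A, z l = s l} := hcl.isCompact
  have hloc : ∀ z : ∀ n, X n, ∃ m, (∀ l ∉ A, z l = s l) → ∀ z' : ∀ n, X n, (∀ l ∉ A, z' l = s l) →
      (∀ l < m, z' l = z l) → F z' i = F z i := by
    intro z
    by_cases hz : ∀ l ∉ A, z l = s l
    · have h1 : z ∈ O ⟨i, F z i⟩ := (hZ z hz ⟨i, F z i⟩).mp rfl
      obtain ⟨m, hm⟩ := M7_cyl (hO ⟨i, F z i⟩) h1
      exact ⟨m, fun _ z' hz' h2 => (hZ z' hz' ⟨i, F z i⟩).mpr (hm z' h2)⟩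
    · exact ⟨0, fun h => (hz h).elim⟩
  choose m hm using hloc
  obtain ⟨t, ht1, ht2⟩ := hcp.elim_nhds_subcover (fun z => PiNat.cylinder z (m z))
    (fun z _ => (PiNat.isOpen_cylinder X z (m z)).mem_nhds (PiNat.self_mem_cylinder z (m z)))
  refine ⟨t.sup m, fun x x' hxx z z' hz1 hz2 hz1' hz2' => ?_⟩
  have hzz : ∀ l < t.sup m, z' l = z l := fun l hl => by
    by_cases hl' : l ∈ A
    · rw [hz1 l hl', hz1' l hl', hxx l hl]
    · rw [hz2 l hl', hz2' l hl']
  have h1 := ht2 hz2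
  simp only [Set.mem_iUnion] at h1
  obtain ⟨y, hy, hzy⟩ := h1
  rw [PiNat.mem_cylinder_iff] at hzy
  have hmy : m y ≤ t.sup m := Finset.le_sup hy
  have hy' := ht1 y hy
  rw [hm y hy' z hz2 hzy, hm y hy' z' hz2' (fun l hl => (hzz l (lt_of_lt_of_le hl hmy)).trans
    (hzy l hl))]

end Pool.Agent.helper81.MU
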