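import Pool.Agent.helper69.MU.Final
import Pool.Agent.helper69.MU.Uni

set_option autoImplicit false

/-!
# Measurable lifts: transfer to the Boolean side
-/

namespace Pool.Agent.helper81.MU

open Finset Filter MeasureTheory Pool.Agent.helper69.MU

theorem MM5_core {Ω G : Type} [MeasurableSpace Ω] [MeasurableSpace G] (μ : Measure Ω) [SFinite μ]
    (ν : Measure G) [IsProbabilityMeasure ν] (T : Ω × G → G) (hT : Measurable T)
    (hp : ∀ A, ν.map (fun z => T (A, z)) = ν) {P : G → Prop} (h : ∀ᵐ x ∂ν, P x) :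
    ∃ z, P z ∧ ∀ᵐ A ∂μ, P (T (A, z)) := by
  obtain ⟨t, ht⟩ : ∃ t : Set G, t = toMeasurable ν {x | ¬ P x} := ⟨_, rfl⟩
  have ht0 : ν t = 0 := by rw [ht, measure_toMeasurable]; exact h
  have htm : MeasurableSet t := ht ▸ measurableSet_toMeasurable _ _
  have hsub : ∀ x, x ∉ t → P x := fun x hx => by
    by_contra hP
    exact hx (ht ▸ subset_toMeasurable _ _ hP)
  have h1 : ∀ A, ∀ᵐ z ∂ν, T (A, z) ∉ t := by
    intro A
    have h2 : ν.map (fun z => T (A, z)) t = 0 := by rw [hp A]; exact ht0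
    have hm : Measurable fun z => T (A, z) := hT.comp (measurable_const.prodMk measurable_id)
    rw [Measure.map_apply hm htm] at h2
    rw [ae_iff]
    refine le_antisymm (le_trans (measure_mono ?_) h2.le) bot_le
    intro z hz
    exact not_not.mp hz
  have hmeas : MeasurableSet {x : Ω × G | T (x.1, x.2) ∉ t} := (hT htm).compl
  have h3 : ∀ᵐ A ∂μ, ∀ᵐ z ∂ν, T (A, z) ∉ t := Eventually.of_forall h1
  have h4 : ∀ᵐ z ∂ν, ∀ᵐ A ∂μ, T (A, z) ∉ t := (Measure.ae_ae_comm hmeas).mp h3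
  have h5 : ∀ᵐ z ∂ν, z ∉ t := by
    rw [ae_iff]
    refine le_antisymm (le_trans (measure_mono ?_) ht0.le) bot_le
    intro z hz
    exact not_not.mp hz
  obtain ⟨z, hz1, hz2⟩ := (h4.and h5).exists
  exact ⟨z, hsub z hz2, hz1.mono fun A hA => hsub _ hA⟩

theorem MM5_uni {X : Type} [Fintype X] [Nonempty X] [MeasurableSpace X]
    [MeasurableSingletonClass X] (e : X ≃ X) : (uni X).map e = uni X := by
  classical
  refine Measure.ext fun s hs => ?_
  have he : Measurable e := measurable_of_finite e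
  rw [Measure.map_apply he hs]
  unfold uni
  rw [PMF.toMeasure_uniformOfFintype_apply _ (he hs), PMF.toMeasure_uniformOfFintype_apply _ hs]
  congr 2
  exact Fintype.card_congr (e.subtypeEquiv fun a => Iff.rfl)

theorem MM5_prob {X : Type} [Fintype X] [Nonempty X] [MeasurableSpace X] :
    IsProbabilityMeasure (uni X) := by
  unfold uni
  infer_instance

theorem transfer {U : Ultrafilter ℕ} (hU : ∀ n : ℕ, ({n} : Set ℕ) ∉ U) {α : GU U ≃* GU U} (Φ : PS → PS)
    (hΦ : ∀ (n : ℕ) (σ : Equiv.Perm (Fin n)),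
      @MeasurableSet PS (@MeasurableSpace.pi ℕ (fun n => Equiv.Perm (Fin n)) fun _ => ⊤) {x | Φ x n = σ})
    (hα : ∀ᵐ x ∂hPS, α (cls U x) = cls U (Φ x)) :
    ∃ F : (IX → ZMod 2) → ∀ n : ℕ, Fin n → ZMod 2,
      (∀ n (v : Fin n → ZMod 2), @MeasurableSet (IX → ZMod 2) (@MeasurableSpace.pi IX (fun _ => ZMod 2) fun _ => ⊤)
        {A | F A n = v}) ∧
      ∀ Θ : SS → SS, Impl α Θ → ∀ᵐ A ∂(@um IX (ZMod 2) _ _ ⊤), ∀ ε : ℝ, 0 < ε →
        ∀ᶠ n in (U : Filter ℕ), dif (F A n) (chi (Θ (toS A)) n) ≤ ε * n := by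
  classical
  let mP : ∀ n : ℕ, MeasurableSpace (Equiv.Perm (Fin n)) := fun _ => ⊤
  have mPd : ∀ n : ℕ, DiscreteMeasurableSpace (Equiv.Perm (Fin n)) := fun n => ⟨fun _ => trivial⟩
  let mZ : MeasurableSpace (ZMod 2) := ⊤
  have mZd : DiscreteMeasurableSpace (ZMod 2) := ⟨fun _ => trivial⟩
  have hpr : ∀ n : ℕ, IsProbabilityMeasure (uni (Equiv.Perm (Fin n))) := fun n => MM5_prob
  have hprZ : IsProbabilityMeasure (uni (ZMod 2)) := MM5_prob
  -- the map
  let T : (IX → ZMod 2) × PS → PS := fun p => ioS (toS p.1) * p.2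
  have hio : ∀ n : ℕ, Measurable fun A : IX → ZMod 2 => ioS (toS A) n := by
    intro n
    have h1 : Measurable fun A : IX → ZMod 2 => fun i : Fin n => A ⟨n, i⟩ :=
      measurable_pi_lambda _ fun i => measurable_pi_apply _
    have h2 : Measurable fun v : Fin n → ZMod 2 => iot n (univ.filter fun i => v i = 1) :=
      measurable_of_finite _
    exact h2.comp h1
  have hT : Measurable T := by
    refine measurable_pi_lambda _ fun n => ?_
    have h1 : Measurable fun p : (IX → ZMod 2) × PS => (ioS (toS p.1) n, p.2 n) :=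
      ((hio n).comp measurable_fst).prodMk ((measurable_pi_apply n).comp measurable_snd)
    have h2 : Measurable fun q : Equiv.Perm (Fin n) × Equiv.Perm (Fin n) => q.1 * q.2 :=
      measurable_of_finite _
    exact h2.comp h1
  have hP : hPS = Measure.infinitePi fun n : ℕ => uni (Equiv.Perm (Fin n)) := rfl
  have hprob : IsProbabilityMeasure hPS := by
    rw [hP]; infer_instance
  have hum : IsProbabilityMeasure (um IX (ZMod 2)) := by
    unfold um; infer_instance
  have hp : ∀ A, hPS.map (fun z => T (A, z)) = hPS := by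
    intro A
    rw [hP]
    have h1 := Measure.infinitePi_map_pi (μ := fun n : ℕ => uni (Equiv.Perm (Fin n)))
      (f := fun n => fun σ => ioS (toS A) n * σ) (fun n => measurable_of_finite _)
    refine h1.trans ?_
    congr 1
    funext n
    exact MM5_uni (Equiv.mulLeft (ioS (toS A) n))
  obtain ⟨z, hz, hz2⟩ := MM5_core (um IX (ZMod 2)) hPS T hT hp hα
  refine ⟨fun A n j => if Φ (T (A, z)) n ((Φ z n)⁻¹ j) = j then 0 else 1, fun n v => ?_, ?_⟩
  · have hTz : Measurable fun A : IX → ZMod 2 => T (A, z) :=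
      hT.comp (measurable_id.prodMk measurable_const)
    have h1 : {A : IX → ZMod 2 | (fun j => if Φ (T (A, z)) n ((Φ z n)⁻¹ j) = j then (0 : ZMod 2) else 1) = v} =
        ⋃ σ : {σ : Equiv.Perm (Fin n) // (fun j => if σ ((Φ z n)⁻¹ j) = j then (0 : ZMod 2) else 1) = v},
          {A : IX → ZMod 2 | Φ (T (A, z)) n = σ.1} := by
      ext A
      rw [Set.mem_iUnion]
      constructor
      · intro h
        exact ⟨⟨Φ (T (A, z)) n, h⟩, rfl⟩
      · rintro ⟨⟨σ, hσ⟩, h⟩
        have h2 : Φ (T (A, z)) n = σ := h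
        show (fun j => if Φ (T (A, z)) n ((Φ z n)⁻¹ j) = j then (0 : ZMod 2) else 1) = v
        rw [h2]
        exact hσ
    have h3 : MeasurableSet {A : IX → ZMod 2 |
        (fun j => if Φ (T (A, z)) n ((Φ z n)⁻¹ j) = j then (0 : ZMod 2) else 1) = v} := by
      rw [h1]
      exact MeasurableSet.iUnion fun σ => hTz (hΦ n σ.1)
    exact h3
  · intro Θ hΘ
    refine hz2.mono fun A hA => ?_
    have h1 : cls U (Φ (T (A, z)) * (Φ z)⁻¹) = α (cls U (ioS (toS A))) := by
      have e1 : cls U (Φ (T (A, z)) * (Φ z)⁻¹) = cls U (Φ (T (A, z))) * (cls U (Φ z))⁻¹ := rfl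
      rw [e1, ← hA, ← hz, ← map_inv, ← map_mul]
      congr 1
      have e2 : cls U (T (A, z)) = cls U (ioS (toS A)) * cls U z := rfl
      rw [e2, mul_assoc, mul_inv_cancel, mul_one]
    have h2 := eq0_iff.mp (hΘ (toS A) _ h1)
    intro ε hε
    filter_upwards [h2 ε hε] with n hn
    rw [dif_comm] at hn
    refine le_trans (le_of_eq ?_) hn
    congr 1
    funext j
    show (if Φ (T (A, z)) n ((Φ z n)⁻¹ j) = j then (0 : ZMod 2) else 1) =
      if j ∈ Sp (Φ (T (A, z)) * (Φ z)⁻¹) n then 1 else 0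
    by_cases h : Φ (T (A, z)) n ((Φ z n)⁻¹ j) = j
    · have h4 : ¬ j ∈ Sp (Φ (T (A, z)) * (Φ z)⁻¹) n := fun h5 => (mem_Sp.mp h5) h
      rw [if_pos h, if_neg h4]
    · have h4 : j ∈ Sp (Φ (T (A, z)) * (Φ z)⁻¹) n := mem_Sp.mpr h
      rw [if_neg h, if_pos h4]

end Pool.Agent.helper81.MU
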